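import Mathlib
import Pool.Agent.H49.ID.MAIN
import Pool.Agent.H49.ID.RES

/-!
# The injective dimension of `c_0` is infinite

In ZFC (no further hypotheses), for real and for complex scalars: for every `n`, the Banach space
`c_0` has no injective resolution of length `n`; and for every `N` and every injective resolution
`E` of `c_0` there is a Banach space `Y` with `Ext^(N+1)(Y, c_0) ≠ 0`, computed from `E`. Injective
resolutions exist.
-/

set_option autoImplicit false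

open scoped ZeroAtInfty

namespace Pool.Agent.Results.MP_667da3_an.InjDimInfinite

open Pool.H74.ID

theorem result (𝕜 : Type) [RCLike 𝕜] :
    (∀ n : ℕ, ¬ InjDimLE 𝕜 n C₀(ℕ, 𝕜)) ∧
    (∀ (E : ℕ → Type) [∀ n, NormedAddCommGroup (E n)] [∀ n, NormedSpace 𝕜 (E n)]
        [∀ n, CompleteSpace (E n)] (e : C₀(ℕ, 𝕜) →L[𝕜] E 0)
        (d : ∀ n, E n →L[𝕜] E (n + 1)),
        IsInjRes 𝕜 C₀(ℕ, 𝕜) E e d → ∀ N : ℕ, ExtNeZero 𝕜 E d N) ∧
    (∃ (E : ℕ → Type) (_ : ∀ n, NormedAddCommGroup (E n)) (_ : ∀ n, NormedSpace 𝕜 (E n))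
        (_ : ∀ n, CompleteSpace (E n)) (e : C₀(ℕ, 𝕜) →L[𝕜] E 0)
        (d : ∀ n, E n →L[𝕜] E (n + 1)), IsInjRes 𝕜 C₀(ℕ, 𝕜) E e d) := by
  refine ⟨fun n => Pool.H49.ID.not_injDimLE_c0 n, ?_, Pool.H49.ID.exists_injRes _⟩
  intro E _ _ _ e d h N
  exact ext_ne_zero E e d h N (Pool.H49.ID.not_injDimLE_c0 N)

end Pool.Agent.Results.MP_667da3_an.InjDimInfinite
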